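import Pool.Agent.H83.V.T1

/-!
Theorem V, row MB: basic facts on the frequency of the mismatches of two points.
-/

set_option autoImplicit false

open MeasureTheory ProbabilityTheory Filter Topology Finset
open scoped Nat ENNReal

namespace Pool.Agent.H55.V

open Pool.Agent.H83.V
open Pool.Agent.H67.AG (Inv Av TT Fac)
open Pool.Agent.H28.LF (dm)

lemma TT_it {X : Type} [MeasurableSpace X] (T : X ≃ᵐ X) (n : ℕ) (p : X × X) :
    (TT T)^[n] p = (T^[n] p.1, T^[n] p.2) := by
  induction n generalizing p with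
  | zero => rfl
  | succ n ih =>
    rw [Function.iterate_succ_apply, ih, Function.iterate_succ_apply, Function.iterate_succ_apply]
    rfl

section bdd

variable {u v : ℕ → ℝ}

lemma bu (h : ∀ n, u n ≤ 1) : IsBoundedUnder (· ≤ ·) atTop u := isBoundedUnder_of ⟨1, h⟩

lemma bl (h : ∀ n, 0 ≤ u n) : IsBoundedUnder (· ≥ ·) atTop u := isBoundedUnder_of ⟨0, h⟩

lemma cu (h : ∀ n, 0 ≤ u n) : IsCoboundedUnder (· ≤ ·) atTop u := (bl h).isCoboundedUnder_le

lemma ls_nonneg (h0 : ∀ n, 0 ≤ u n) (h1 : ∀ n, u n ≤ 1) : 0 ≤ limsup u atTop :=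
  le_limsup_of_le (bu h1) fun b hb => by
    obtain ⟨n, hn⟩ := hb.exists
    exact (h0 n).trans hn

lemma ls_le_one (h0 : ∀ n, 0 ≤ u n) (h1 : ∀ n, u n ≤ 1) : limsup u atTop ≤ 1 :=
  limsup_le_of_le (cu h0) (Eventually.of_forall h1)

/-- sequences whose difference tends to `0` -/
lemma ls_le (h0 : ∀ n, 0 ≤ u n) (h1 : ∀ n, u n ≤ 1) (he : Tendsto (fun n => v n - u n) atTop (𝓝 0)) :
    limsup v atTop ≤ limsup u atTop := by
  have hv : v = u + fun n => v n - u n := by
    ext n
    simp
  calc limsup v atTop = limsup (u + fun n => v n - u n) atTop := by rw [← hv]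
    _ ≤ limsup u atTop + limsup (fun n => v n - u n) atTop :=
        limsup_add_le (bl h0) (bu h1) he.isBoundedUnder_ge.isCoboundedUnder_le
          he.isBoundedUnder_le
    _ = limsup u atTop := by rw [he.limsup_eq, add_zero]

end bdd

section main

variable (c : Vx)

lemma mm01 (p : c.X × c.X) : 0 ≤ c.mm p ∧ c.mm p ≤ 1 := by
  unfold Vx.mm
  split_ifs <;> simp

lemma mm_self (x : c.X) : c.mm (x, x) = 0 := by
  simp [Vx.mm]

lemma mm_comm (x y : c.X) : c.mm (x, y) = c.mm (y, x) := by
  simp only [Vx.mm, eq_comm]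

lemma mm_tri (x y z : c.X) : c.mm (x, z) ≤ c.mm (x, y) + c.mm (y, z) := by
  unfold Vx.mm
  by_cases h1 : c.a x = c.a y
  · by_cases h2 : c.a y = c.a z
    · simp [h1, h2]
    · simp [h1, h2]
  · simp only [h1, if_false]
    split_ifs <;> norm_num

lemma mm_meas : Measurable c.mm := by
  unfold Vx.mm
  exact Measurable.ite (measurableSet_eq_fun (c.am.comp measurable_fst)
    (c.am.comp measurable_snd)) measurable_const measurable_const

lemma av0 (n : ℕ) (p : c.X × c.X) : 0 ≤ Av (TT c.T) 1 n c.mm p := by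
  unfold Av
  exact div_nonneg (Finset.sum_nonneg fun l _ => (mm01 c _).1) (Nat.cast_nonneg n)

lemma av1 (n : ℕ) (p : c.X × c.X) : Av (TT c.T) 1 n c.mm p ≤ 1 := by
  unfold Av
  refine div_le_one_of_le₀ ?_ (Nat.cast_nonneg n)
  calc ∑ l ∈ range n, c.mm ((TT c.T)^[1 * l] p) ≤ ∑ l ∈ range n, (1 : ℝ) :=
        Finset.sum_le_sum fun l _ => (mm01 c _).2
    _ = n := by simp

lemma av_meas (n : ℕ) : Measurable (Av (TT c.T) 1 n c.mm) := by
  unfold Av
  refine Measurable.div_const (Finset.measurable_sum _ fun l _ => ?_) _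
  exact (mm_meas c).comp ((TT c.T).measurable.iterate _)

lemma av_shift (n : ℕ) (p : c.X × c.X) :
    |Av (TT c.T) 1 n c.mm (TT c.T p) - Av (TT c.T) 1 n c.mm p| ≤ 1 / (n : ℝ) := by
  unfold Av
  rw [← sub_div, abs_div, Nat.abs_cast]
  refine div_le_div_of_nonneg_right ?_ (Nat.cast_nonneg n)
  have h : ∀ n : ℕ, (∑ l ∈ range n, c.mm ((TT c.T)^[1 * l] (TT c.T p))) -
      (∑ l ∈ range n, c.mm ((TT c.T)^[1 * l] p)) = c.mm ((TT c.T)^[n] p) - c.mm p := by
    intro n
    rw [← Finset.sum_sub_distrib]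
    have h2 : ∀ l ∈ range n, c.mm ((TT c.T)^[1 * l] (TT c.T p)) - c.mm ((TT c.T)^[1 * l] p) =
        (fun l => c.mm ((TT c.T)^[l] p)) (l + 1) - (fun l => c.mm ((TT c.T)^[l] p)) l := by
      intro l _
      simp only [one_mul]
      rw [← Function.iterate_succ_apply]
    rw [Finset.sum_congr rfl h2, Finset.sum_range_sub (fun l => c.mm ((TT c.T)^[l] p)) n]
    rfl
  rw [h n, abs_le]
  have h1 := mm01 c ((TT c.T)^[n] p)
  have h2 := mm01 c p
  constructor <;> linarith [h1.1, h1.2, h2.1, h2.2]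

theorem M_inv (p : c.X × c.X) : c.M (TT c.T p) = c.M p := by
  unfold Vx.M
  have hz : Tendsto (fun n : ℕ => (1 : ℝ) / n) atTop (𝓝 0) := tendsto_one_div_atTop_nhds_zero_nat
  apply le_antisymm
  · refine ls_le (fun n => av0 c n _) (fun n => av1 c n _) ?_
    exact squeeze_zero_norm (fun n => by rw [Real.norm_eq_abs]; exact av_shift c n p) hz
  · refine ls_le (fun n => av0 c n _) (fun n => av1 c n _) ?_
    refine squeeze_zero_norm (fun n => ?_) hz
    rw [Real.norm_eq_abs, abs_sub_comm]
    exact av_shift c n p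

theorem M_meas : Measurable c.M := by
  unfold Vx.M
  exact Measurable.limsup fun n => av_meas c n

theorem M_tri (x y z : c.X) : c.M (x, z) ≤ c.M (x, y) + c.M (y, z) := by
  unfold Vx.M
  have h1 : (fun n => Av (TT c.T) 1 n c.mm (x, z)) ≤ᶠ[atTop]
      ((fun n => Av (TT c.T) 1 n c.mm (x, y)) + fun n => Av (TT c.T) 1 n c.mm (y, z)) := by
    refine Eventually.of_forall fun n => ?_
    simp only [Pi.add_apply, Av]
    rw [← add_div, ← Finset.sum_add_distrib]
    refine div_le_div_of_nonneg_right (Finset.sum_le_sum fun l _ => ?_) (Nat.cast_nonneg n)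
    rw [TT_it, TT_it, TT_it]
    exact mm_tri c _ _ _
  refine (limsup_le_limsup h1 (cu fun n => av0 c n _) ?_).trans
    (limsup_add_le (bl fun n => av0 c n _) (bu fun n => av1 c n _) (cu fun n => av0 c n _)
      (bu fun n => av1 c n _))
  refine isBoundedUnder_of ⟨2, fun n => ?_⟩
  have h2 := av1 c n (x, y)
  have h3 := av1 c n (y, z)
  simp only [Pi.add_apply]
  linarith

end main

theorem pf_MB (hB : Pool.Agent.H40.AG.T_BK) : T_MB := by
  intro c
  refine ⟨M_meas c, M_inv c, fun x y z => ⟨?_, ?_, ?_, ?_, M_tri c x y z⟩, ?_, ?_⟩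
  · exact ls_nonneg (fun n => av0 c n _) (fun n => av1 c n _)
  · exact ls_le_one (fun n => av0 c n _) (fun n => av1 c n _)
  · have h : ∀ n, Av (TT c.T) 1 n c.mm (x, x) = 0 := by
      intro n
      unfold Av
      rw [Finset.sum_eq_zero, zero_div]
      intro l _
      rw [TT_it]
      exact mm_self c _
    unfold Vx.M
    simp only [h]
    exact limsup_const 0
  · have h : ∀ n, Av (TT c.T) 1 n c.mm (x, y) = Av (TT c.T) 1 n c.mm (y, x) := by
      intro n
      unfold Av
      congr 1
      refine Finset.sum_congr rfl fun l _ => ?_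
      rw [TT_it, TT_it]
      exact mm_comm c _ _
    unfold Vx.M
    simp only [h]
  · rw [MeasurableSpace.measurableSet_invariants]
    refine ⟨measurableSet_le (M_meas c) measurable_const, ?_⟩
    ext p
    rw [Function.iterate_one]
    simp only [Set.mem_preimage, Vx.Ec, Set.mem_ofPred_eq, M_inv c p]
  · intro Ω _ P _ T g g' hT hg hg'
    have hgi : ∀ (f : Ω → c.X), (∀ ω, f (T ω) = c.T (f ω)) → ∀ (l : ℕ) ω,
        f (T^[l] ω) = c.T^[l] (f ω) := by
      intro f hf l
      induction l with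
      | zero => intro ω; rfl
      | succ l ih =>
        intro ω
        rw [Function.iterate_succ_apply, ih, hf, ← Function.iterate_succ_apply]
    have hAv : ∀ n ω, Av T 1 n (dm (fun ω => c.a (g ω)) (fun ω => c.a (g' ω))) ω =
        Av (TT c.T) 1 n c.mm (g ω, g' ω) := by
      intro n ω
      unfold Av
      congr 1
      refine Finset.sum_congr rfl fun l _ => ?_
      rw [TT_it]
      unfold dm Vx.mm
      simp only [hgi g hg.2, hgi g' hg'.2]
    have hfm : Measurable (dm (fun ω => c.a (g ω)) (fun ω => c.a (g' ω))) := by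
      unfold dm
      exact Measurable.ite (measurableSet_eq_fun (c.am.comp hg.1.measurable)
        (c.am.comp hg'.1.measurable)) measurable_const measurable_const
    have hb := hB Ω P T 1 (dm (fun ω => c.a (g ω)) (fun ω => c.a (g' ω))) hT hfm
      ⟨1, fun ω => by
        unfold dm
        split_ifs <;> simp⟩
    filter_upwards [hb] with ω hω
    simp only [hAv] at hω
    exact hω.limsup_eq.symm

end Pool.Agent.H55.V
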